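import Pool.Agent.Lib.MP_acafa7_al.F.H65.Dst
import Pool.Agent.Lib.MP_acafa7_al.F.H70.KeyA

/-! BN (7.1 (f), (g)): the bottleneck property holds for large finite `p`-subgroups. -/

namespace MSG.F36

open Classical

section

variable {V : Type} {G : SimpleGraph V} {Γ : Type} [Group Γ] [MulAction Γ V]

theorem aut_sub (hA : Aut G Γ) (B : Subgroup Γ) : Aut G B := fun b x y => hA (b : Γ) x y

theorem pol_res {B H : Subgroup Γ} (hHB : H ≤ B) {C c k n : ℕ} {q : ℕ → V} {β : ℕ → List V}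
    {i₁ i₂ : ℕ} (h : Pol G B C c k n q β i₁ i₂) : Pol G H C c k n q β i₁ i₂ where
  le1 := h.le1
  le2 := h.le2
  clo := h.clo
  fix := fun i hi g => h.fix i hi ⟨g, hHB g.2⟩
  wk := h.wk
  nt := h.nt

theorem dist_pow (hc : G.Connected) (hA : Aut G Γ) (h : Γ) (u : V) (r : ℕ)
    (hr : G.dist u (h • u) ≤ r) (i : ℕ) : G.dist u (h ^ i • u) ≤ i * r := by
  induction i with
  | zero => simp
  | succ i ih =>
    have h1 := hc.dist_triangle (u := u) (v := h ^ i • u) (w := h ^ (i + 1) • u)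
    have h2 : G.dist (h ^ i • u) (h ^ (i + 1) • u) = G.dist u (h • u) := by
      rw [pow_succ, mul_smul, F65.dist_smul hc hA]
    rw [h2] at h1
    have h3 : (i + 1) * r = i * r + r := by ring
    omega

/-- points near a point moved little by a generating set of `⟨z⟩` are moved little by `z` -/
theorem near (hc : G.Connected) (hA : Aut G Γ) (hGEN : GenPStatement) {r₀ P : ℕ}
    (hP : ∀ (x : V) (g : Γ), G.dist x (g • x) ≤ 2 * r₀ + 1 → IsOfFinOrder g → orderOf g ≤ P)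
    (p : ℕ) [Fact p.Prime] (z : Γ) [Finite (Subgroup.zpowers z)]
    (hp : IsPGroup p (Subgroup.zpowers z)) (u x : V)
    (h1 : ∃ h : Subgroup.zpowers z, G.dist u (h • x) ≤ r₀)
    (h2 : Subgroup.closure {h : Subgroup.zpowers z | G.dist x (h • x) ≤ 2 * r₀ + 1} = ⊤) :
    G.dist u (z • u) ≤ P * (4 * r₀ + 1) := by
  rcases hGEN p (Subgroup.zpowers z) hp inferInstance _ h2 with h3 | ⟨h, hh, hgen⟩
  · have h4 : z = 1 := congrArg Subtype.val (h3 ⟨z, Subgroup.mem_zpowers z⟩)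
    rw [h4, one_smul, SimpleGraph.dist_self]
    exact Nat.zero_le _
  · obtain ⟨h', hh'⟩ := h1
    have hh2 : G.dist x ((h : Γ) • x) ≤ 2 * r₀ + 1 := hh
    have hh3 : G.dist u ((h' : Γ) • x) ≤ r₀ := hh'
    have hfin : IsOfFinOrder (h : Γ) := by
      have h5 : IsOfFinOrder h := isOfFinOrder_of_finite h
      exact (Subgroup.zpowers z).subtype.isOfFinOrder h5
    have hord := hP x h hh2 hfin
    have hcomm : (h : Γ) • (h' : Γ) • x = (h' : Γ) • (h : Γ) • x := by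
      obtain ⟨a, ha⟩ := h.2
      obtain ⟨b, hb⟩ := h'.2
      have ha' : z ^ a = (h : Γ) := ha
      have hb' : z ^ b = (h' : Γ) := hb
      rw [smul_smul, smul_smul, ← ha', ← hb', ← zpow_add, ← zpow_add, add_comm]
    have hu : G.dist u ((h : Γ) • u) ≤ 4 * r₀ + 1 := by
      have t1 := hc.dist_triangle (u := u) (v := (h' : Γ) • x) (w := (h : Γ) • u)
      have t2 := hc.dist_triangle (u := (h' : Γ) • x) (v := (h : Γ) • (h' : Γ) • x)
        (w := (h : Γ) • u)
      have t3 : G.dist ((h : Γ) • (h' : Γ) • x) ((h : Γ) • u) = G.dist ((h' : Γ) • x) u :=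
        F65.dist_smul hc hA _ _ _
      have t4 : G.dist ((h' : Γ) • x) ((h : Γ) • (h' : Γ) • x) = G.dist x ((h : Γ) • x) := by
        rw [hcomm, F65.dist_smul hc hA]
      have t5 : G.dist ((h' : Γ) • x) u = G.dist u ((h' : Γ) • x) := SimpleGraph.dist_comm
      omega
    obtain ⟨i, hi, hiz⟩ : ∃ i, i < orderOf (h : Γ) ∧ (h : Γ) ^ i = z := by
      obtain ⟨m, hm⟩ := hgen ⟨z, Subgroup.mem_zpowers z⟩
      have hm2 : (h : Γ) ^ m = z := congrArg Subtype.val hm
      have hpos : 0 < orderOf (h : Γ) := hfin.orderOf_pos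
      refine ⟨(m % (orderOf (h : Γ) : ℤ)).toNat, ?_, ?_⟩
      · have h6 := Int.emod_lt_of_pos m (b := (orderOf (h : Γ) : ℤ)) (by exact_mod_cast hpos)
        have h7 := Int.emod_nonneg m (b := (orderOf (h : Γ) : ℤ)) (by omega)
        omega
      · rw [← zpow_natCast, Int.toNat_of_nonneg
          (Int.emod_nonneg m (b := (orderOf (h : Γ) : ℤ)) (by omega)), zpow_mod_orderOf]
        exact hm2
    have h8 := dist_pow hc hA (h : Γ) u _ hu i
    rw [hiz] at h8
    exact h8.trans (Nat.mul_le_mul_right _ (by omega))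

end

theorem bn_st (hCON : ConStatement) (hKEY : KeyStatement) (hGEN : GenPStatement)
    (hBNA : BNAStatement) : BNStatement := by
  intro V G C hC Γ _ _ hAct N₀
  have hc := hC.conn
  obtain ⟨r₀, c₁, hKey⟩ := hKEY C (2 * N₀)
  obtain ⟨P, hP⟩ := hAct.ord (2 * r₀ + 1)
  obtain ⟨n₂, hn₂⟩ := hAct.prop (P * (4 * r₀ + 1))
  refine ⟨c₁ * (C * (2 * N₀ + 2) ^ 2) * n₂, ?_⟩
  intro p _ B hBfin hBp _ _ hM c L hL
  have : Fintype B := Fintype.ofFinite B
  have hautB : Aut G B := aut_sub hAct.aut B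
  obtain ⟨K₁, hK₁⟩ := hKey c
  obtain ⟨K₂, hK₂⟩ := hCON V G C hC p B hautB hBp c L hL (16 * (3 * C + 2))
  refine ⟨max (max K₁ K₂) 1, fun k hk => ?_⟩
  have hk1 : K₁ ≤ k := le_trans (le_trans (le_max_left _ _) (le_max_left _ _)) hk
  have hk2 : K₂ ≤ k := le_trans (le_trans (le_max_right _ _) (le_max_left _ _)) hk
  have hk3 : 1 ≤ k := le_trans (le_max_right _ _) hk
  rcases hBNA V G hc B C c k N₀ hk3 (fun x y hx hy hd => hK₂ k hk2 x y hx hy hd) with
    h | ⟨n, q, β, i₁, i₂, hn, hPol⟩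
  · exact h
  exfalso
  have hw := F70.catN_walk hPol.wk n le_rfl
  rw [hPol.clo] at hw
  obtain ⟨Sm, hSm⟩ := hC.geo (q 0) (q 0) (catN β (q 0) n) [q 0] hw.1
    ⟨List.isChain_singleton _, rfl, rfl⟩
  have hcard : Sm.card ≤ C * (2 * N₀ + 2) ^ 2 * k ^ 2 := by
    refine hSm.card.trans ?_
    have h1 : (catN β (q 0) n).length + [q 0].length ≤ (2 * N₀ + 2) * k := by
      have h2 : ([q 0] : List V).length = 1 := rfl
      have h3 : n * k ≤ 2 * N₀ * k := Nat.mul_le_mul_right k hn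
      have h4 : (2 * N₀ + 2) * k = 2 * N₀ * k + 2 * k := by ring
      have h5 := hw.2
      omega
    calc C * ((catN β (q 0) n).length + [q 0].length) ^ 2 ≤ C * ((2 * N₀ + 2) * k) ^ 2 :=
          Nat.mul_le_mul_left _ (Nat.pow_le_pow_left h1 2)
      _ = C * (2 * N₀ + 2) ^ 2 * k ^ 2 := by ring
  have hz : ∀ z : B, ∃ U ⊆ Sm, k ^ 2 ≤ c₁ * U.card ∧
      ∀ u ∈ U, G.dist u ((z : Γ) • u) ≤ P * (4 * r₀ + 1) := by
    intro z
    have hle : Subgroup.zpowers (z : Γ) ≤ B := Subgroup.zpowers_le.2 z.2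
    have hfinz : Finite (Subgroup.zpowers (z : Γ)) :=
      Finite.of_injective _ (Subgroup.inclusion_injective hle)
    have hft := Fintype.ofFinite (Subgroup.zpowers (z : Γ))
    have hgen : ∀ h : Subgroup.zpowers (z : Γ), h ∈ Subgroup.zpowers
        (⟨(z : Γ), Subgroup.mem_zpowers _⟩ : Subgroup.zpowers (z : Γ)) := by
      rintro ⟨h, m, hm⟩
      exact ⟨m, Subtype.ext hm⟩
    have hpz : IsPGroup p (Subgroup.zpowers (z : Γ)) := hBp.to_le hle
    obtain ⟨U, hU, hU1, hU2⟩ := hK₁ V G hC p (Subgroup.zpowers (z : Γ)) (aut_sub hAct.aut _) hpz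
      ⟨(z : Γ), Subgroup.mem_zpowers _⟩ hgen k n q β i₁ i₂ hk1 hn (pol_res hle hPol) Sm hSm
    refine ⟨U, hU, hU1, fun u hu => ?_⟩
    obtain ⟨x, hx1, hx2⟩ := hU2 u hu
    exact near hc hAct.aut hGEN hP p (z : Γ) hpz u x hx1 hx2
  choose U hU hU1 hU2 using hz
  have hsum : ∑ z : B, (U z).card ≤ Sm.card * n₂ := by
    have h1 := Finset.sum_card_bipartiteAbove_eq_sum_card_bipartiteBelow
      (s := (Finset.univ : Finset B)) (t := Sm) (fun (z : B) (u : V) => u ∈ U z)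
    have h2 : ∀ z : B, (Finset.bipartiteAbove (fun (z : B) (u : V) => u ∈ U z) Sm z) = U z := by
      intro z
      ext u
      rw [Finset.mem_bipartiteAbove]
      exact ⟨fun h => h.2, fun h => ⟨hU z h, h⟩⟩
    rw [Finset.sum_congr rfl (fun z _ => congrArg Finset.card (h2 z))] at h1
    rw [h1, ← smul_eq_mul]
    refine Finset.sum_le_card_nsmul _ _ _ fun u _ => ?_
    have h3 := hn₂ u
    have h4 : (((Finset.bipartiteBelow (fun (z : B) (u : V) => u ∈ U z) Finset.univ u).map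
        (Function.Embedding.subtype (fun g : Γ => g ∈ B)) : Finset Γ) : Set Γ) ⊆
        {g : Γ | G.dist u (g • u) ≤ P * (4 * r₀ + 1)} := by
      intro g hg
      rw [Finset.mem_coe, Finset.mem_map] at hg
      obtain ⟨z, hz, rfl⟩ := hg
      rw [Finset.mem_bipartiteBelow] at hz
      exact hU2 z u hz.2
    have h5 := Set.ncard_le_ncard h4 h3.1
    rw [Set.ncard_coe_finset, Finset.card_map] at h5
    exact h5.trans h3.2
  have hfin : Nat.card B * k ^ 2 ≤ c₁ * (C * (2 * N₀ + 2) ^ 2) * n₂ * k ^ 2 := by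
    calc Nat.card B * k ^ 2 = ∑ _z : B, k ^ 2 := by
          rw [Finset.sum_const, Finset.card_univ, smul_eq_mul, Nat.card_eq_fintype_card]
      _ ≤ ∑ z : B, c₁ * (U z).card := Finset.sum_le_sum fun z _ => hU1 z
      _ = c₁ * ∑ z : B, (U z).card := by rw [Finset.mul_sum]
      _ ≤ c₁ * (Sm.card * n₂) := Nat.mul_le_mul_left _ hsum
      _ ≤ c₁ * (C * (2 * N₀ + 2) ^ 2 * k ^ 2 * n₂) :=
          Nat.mul_le_mul_left _ (Nat.mul_le_mul_right _ hcard)
      _ = c₁ * (C * (2 * N₀ + 2) ^ 2) * n₂ * k ^ 2 := by ring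
  have hpos : 0 < k ^ 2 := by positivity
  exact absurd (Nat.le_of_mul_le_mul_right hfin hpos) (not_le.mpr hM)

end MSG.F36
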